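import Pool.Agent.Run7.h625.CW.Lin

/-!
The values of the doubled systems, and the existence of indistinguishable pairs.
-/

set_option autoImplicit false
set_option linter.unusedSectionVars false

namespace Run7.h625.CW

open Finset Function
open Matrix hiding row
open Pool.Agent.W888.GX (wt rs row Exp wt_add wt_eq_zero rs_add row_dot Bad viol exists_hyp3
  exp3_of near_count z2 z2_add_self)

section

variable {n m : ℕ} {c : Fin m → Fin 3 → Fin n} {b : Fin m → ZMod 2} {G : Finset (Fin m)}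

theorem sum_dbl (φ : ZMod 2 → (Fin 3 → Fin n × ZMod 2) → ℝ) :
    ∑ z, ∑ w, (dbl c b G z w : ℝ) * φ z w =
      ∑ j ∈ G, ∑ a : Fin 3 → ZMod 2, φ (b j + ∑ l, a l) (fun l => (c j l, a l)) := by
  have h1 : ∀ z w, (dbl c b G z w : ℝ) * φ z w =
      ∑ j ∈ G, if (fun l => (w l).1) = c j ∧ z = b j + ∑ l, (w l).2 then φ z w else 0 := by
    intro z w
    unfold dbl
    rw [Finset.card_filter]
    push_cast
    rw [Finset.sum_mul]
    refine Finset.sum_congr rfl fun j _ => ?_
    split_ifs <;> simp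
  simp only [h1]
  have h2 : ∀ z : ZMod 2, ∑ w : Fin 3 → Fin n × ZMod 2, ∑ j ∈ G,
      (if (fun l => (w l).1) = c j ∧ z = b j + ∑ l, (w l).2 then φ z w else 0) =
      ∑ j ∈ G, ∑ w : Fin 3 → Fin n × ZMod 2,
      (if (fun l => (w l).1) = c j ∧ z = b j + ∑ l, (w l).2 then φ z w else 0) :=
    fun z => Finset.sum_comm
  simp only [h2]
  rw [Finset.sum_comm]
  refine Finset.sum_congr rfl fun j _ => ?_
  rw [Finset.sum_comm]
  have h3 : ∀ w : Fin 3 → Fin n × ZMod 2,
      ∑ z, (if (fun l => (w l).1) = c j ∧ z = b j + ∑ l, (w l).2 then φ z w else 0) =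
      if (fun l => (w l).1) = c j then φ (b j + ∑ l, (w l).2) w else 0 := by
    intro w
    by_cases hw : (fun l => (w l).1) = c j
    · simp [hw]
    · simp [hw]
  simp only [h3]
  rw [← Equiv.sum_comp (Equiv.arrowProdEquivProdArrow (Fin 3) (fun _ => Fin n)
    (fun _ => ZMod 2)).symm, Fintype.sum_prod_type, Finset.sum_eq_single (c j)]
  · refine Finset.sum_congr rfl fun a _ => ?_
    rw [if_pos]
    · rfl
    · rfl
  · intro f _ hf
    refine Finset.sum_eq_zero fun a _ => if_neg hf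
  · intro h; exact absurd (mem_univ _) h

theorem avg_shift {f : Fin 3 → Fin n} (hf : Injective f) (F : (Fin 3 → ZMod 2) → ℝ) :
    8 * ∑ τ : Fin n → ZMod 2, F (τ ∘ f) = 2 ^ n * ∑ a, F a := by
  have h1 : ∀ a0 : Fin 3 → ZMod 2,
      ∑ τ : Fin n → ZMod 2, F (τ ∘ f) = ∑ τ : Fin n → ZMod 2, F (τ ∘ f + a0) := by
    intro a0
    rw [← Equiv.sum_comp (Equiv.addRight (extend f a0 0))]
    refine Finset.sum_congr rfl fun τ _ => ?_
    congr 1
    funext l
    simp [hf.extend_apply]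
  have h2 : ∑ _a0 : Fin 3 → ZMod 2, ∑ τ : Fin n → ZMod 2, F (τ ∘ f) =
      8 * ∑ τ : Fin n → ZMod 2, F (τ ∘ f) := by
    rw [Finset.sum_const, card_univ, Fintype.card_fun, ZMod.card, Fintype.card_fin, nsmul_eq_mul]
    norm_num
  rw [← h2, Finset.sum_congr rfl fun a0 _ => h1 a0, Finset.sum_comm]
  have h3 : ∀ τ : Fin n → ZMod 2, ∑ a0 : Fin 3 → ZMod 2, F (τ ∘ f + a0) = ∑ a, F a :=
    fun τ => Equiv.sum_comp (Equiv.addLeft (τ ∘ f)) F
  rw [Finset.sum_congr rfl fun τ _ => h3 τ, Finset.sum_const, card_univ, Fintype.card_fun,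
    ZMod.card, Fintype.card_fin, nsmul_eq_mul]
  norm_num

/-- The value of the doubled system is at most the value of the system. -/
theorem dbl_val (hinj : ∀ j ∈ G, Injective (c j)) (β : ℝ)
    (hβ : ∀ x : Fin n → ZMod 2, ∑ j ∈ G, (if ∑ l, x (c j l) = b j then (1 : ℝ) else 0) ≤ β)
    (y : Fin n × ZMod 2 → ZMod 2) :
    ∑ j ∈ G, ∑ a : Fin 3 → ZMod 2,
      (if ∑ l, y (c j l, a l) = b j + ∑ l, a l then (1 : ℝ) else 0) ≤ 8 * β := by
  have h1 : ∀ j ∈ G, 8 * ∑ τ : Fin n → ZMod 2,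
      (if ∑ l, (y (c j l, τ (c j l)) + τ (c j l)) = b j then (1 : ℝ) else 0) =
      2 ^ n * ∑ a : Fin 3 → ZMod 2,
      (if ∑ l, y (c j l, a l) = b j + ∑ l, a l then (1 : ℝ) else 0) := by
    intro j hj
    rw [← avg_shift (hinj j hj)]
    congr 1
    refine Finset.sum_congr rfl fun τ _ => ?_
    simp only [Function.comp_apply]
    rw [Finset.sum_add_distrib]
    have e1 := z2_add_self (∑ l, τ (c j l))
    refine if_congr ⟨fun h => ?_, fun h => ?_⟩ rfl rfl
    · linear_combination h - e1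
    · rw [h]; linear_combination e1
  have h2 : (2 : ℝ) ^ n * ∑ j ∈ G, ∑ a : Fin 3 → ZMod 2,
      (if ∑ l, y (c j l, a l) = b j + ∑ l, a l then (1 : ℝ) else 0) ≤ 2 ^ n * (8 * β) := by
    rw [Finset.mul_sum, ← Finset.sum_congr rfl h1, ← Finset.mul_sum, Finset.sum_comm]
    have h3 : ∑ τ : Fin n → ZMod 2, ∑ j ∈ G,
        (if ∑ l, (y (c j l, τ (c j l)) + τ (c j l)) = b j then (1 : ℝ) else 0) ≤
        ∑ _τ : Fin n → ZMod 2, β :=
      Finset.sum_le_sum fun τ _ => hβ fun v => y (v, τ v) + τ v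
    rw [Finset.sum_const, card_univ, Fintype.card_fun, ZMod.card, Fintype.card_fin,
      nsmul_eq_mul] at h3
    push_cast at h3
    nlinarith
  exact le_of_mul_le_mul_left h2 (by positivity)

end

/-- the number of equations -/
def total {r : ℕ} {Γ V : Type} [Fintype Γ] [Fintype V] (I : Str r Γ V) : ℕ := ∑ z, ∑ w, I z w

/-- the number of equations satisfied by `x` -/
def linSat {V : Type} [Fintype V] (I : Str 3 (ZMod 2) V) (x : V → ZMod 2) : ℕ :=
  ∑ z, ∑ w, if x (w 0) + x (w 1) + x (w 2) = z then I z w else 0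

theorem cast_total {r : ℕ} {Γ V : Type} [Fintype Γ] [Fintype V] (I : Str r Γ V) :
    (total I : ℝ) = ∑ z, ∑ w, (I z w : ℝ) * 1 := by
  unfold total
  push_cast
  simp

theorem cast_linSat {V : Type} [Fintype V] (I : Str 3 (ZMod 2) V) (x : V → ZMod 2) :
    (linSat I x : ℝ) = ∑ z, ∑ w, (I z w : ℝ) * (if ∑ l, x (w l) = z then 1 else 0) := by
  unfold linSat
  push_cast
  refine Finset.sum_congr rfl fun z _ => Finset.sum_congr rfl fun w _ => ?_
  rw [Fin.sum_univ_three, mul_ite, mul_one, mul_zero]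

/-- Pairs of systems of linear equations with three variables, one satisfiable and one of value
close to `1 / 2`, on which Duplicator wins the game with linearly many pebbles. -/
theorem exists_pair (ρ : ℝ) (hρ : 0 < ρ) : ∃ κ : ℝ, 0 < κ ∧ ∃ n0 : ℕ, 1 ≤ n0 ∧
    ∀ n : ℕ, n0 ≤ n → ∃ I J : Str 3 (ZMod 2) (Fin n × ZMod 2),
      0 < total I ∧ 0 < total J ∧ (∃ x, linSat I x = total I) ∧
      (∀ x, (linSat J x : ℝ) ≤ (1 / 2 + ρ) * total J) ∧
      ∀ K : ℕ, 1 ≤ K → (K : ℝ) ≤ κ * n → DuplicatorWins K I J := by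
  obtain ⟨δ, hδd⟩ : ∃ δ : ℝ, δ = min ρ (1 / 2) / 2 := ⟨_, rfl⟩
  have hδ : 0 < δ := by rw [hδd]; positivity
  have hδ1 : δ ≤ 1 / 4 := by
    rw [hδd]; have := min_le_right ρ (1 / 2); linarith
  have hδρ : 2 * δ ≤ ρ := by
    rw [hδd]; have := min_le_left ρ (1 / 2); linarith
  obtain ⟨q, hq⟩ := exists_nat_gt (1 / δ)
  have hq0 : (0 : ℝ) < q := lt_trans (by positivity) hq
  obtain ⟨M, hM⟩ := exists_nat_gt (Real.log 2 / δ ^ 2)
  have hlog : 0 < Real.log 2 := Real.log_pos (by norm_num)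
  have hM0 : (0 : ℝ) < M := lt_of_le_of_lt (by positivity) hM
  have hM1 : 1 ≤ M := by
    have : 0 < M := by exact_mod_cast hM0
    omega
  obtain ⟨ξ, hξd⟩ : ∃ ξ : ℝ, ξ = 1 / (6 * 32 ^ q) := ⟨_, rfl⟩
  have hpξ : (32 : ℝ) ^ q * (6 * ξ) ≤ 1 := by
    rw [hξd]
    apply le_of_eq
    have : (0 : ℝ) < 32 ^ q := by positivity
    field_simp
  obtain ⟨B, hB⟩ : ∃ B : ℕ, B = 8192 * 3 ^ 12 * M ^ 4 := ⟨_, rfl⟩
  have hBpos : 0 < B := by
    rw [hB]
    have : 0 < M := by omega
    positivity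
  have hB0 : (0 : ℝ) < B := by exact_mod_cast hBpos
  refine ⟨1 / (8 * B), by positivity, B + 6 * 32 ^ q, ?_, ?_⟩
  · omega
  intro n hn
  have hn1 : 1 ≤ n := by omega
  have hn0 : (0 : ℝ) < n := by exact_mod_cast hn1
  obtain ⟨r0, hr0⟩ : ∃ r0, r0 = n / B := ⟨_, rfl⟩
  have hrn : r0 * B ≤ n := by
    rw [hr0]
    exact Nat.div_mul_le_self n B
  have hrn' : n < (r0 + 1) * B := by
    rw [hr0]
    exact Nat.lt_mul_of_div_lt (Nat.lt_succ_self _) hBpos
  obtain ⟨c, hc1, hc2⟩ := exists_hyp3 (M * n) n r0 q ξ hn1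
    (Nat.le_mul_of_pos_left n hM1)
    (by
      have h4 : 2 ≤ B := by
        rw [hB]
        calc 2 ≤ 8192 * 3 ^ 12 * 1 := by norm_num
          _ ≤ _ := Nat.mul_le_mul_left _ (Nat.one_le_pow _ _ (by omega))
      calc 2 * r0 = r0 * 2 := by ring
        _ ≤ r0 * B := Nat.mul_le_mul_left _ h4
        _ ≤ n := hrn)
    (by
      have h1 : (r0 : ℝ) * B ≤ n := by exact_mod_cast hrn
      push_cast
      calc 8192 * 3 ^ 12 * ((M : ℝ) * n) ^ 4 * r0 =
            ((r0 : ℝ) * (8192 * 3 ^ 12 * M ^ 4)) * n ^ 4 := by ring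
        _ = ((r0 : ℝ) * B) * n ^ 4 := by
            rw [hB]
            push_cast
            ring
        _ ≤ n * n ^ 4 := mul_le_mul_of_nonneg_right h1 (by positivity)
        _ = (n : ℝ) ^ 5 := by ring)
    (by
      rw [hξd, one_div, inv_mul_eq_div, one_le_div (by positivity)]
      have : 6 * 32 ^ q ≤ n := by omega
      exact_mod_cast this)
    hpξ
  classical
  obtain ⟨G, hG⟩ : ∃ G : Finset (Fin (M * n)), G = univ.filter fun j => ¬ Bad ∅ (c j) := ⟨_, rfl⟩
  have hmn : (0 : ℝ) < (M * n : ℕ) := by push_cast; positivity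
  -- the right-hand side
  obtain ⟨b, hb⟩ : ∃ b : Fin (M * n) → ZMod 2, ∀ x, (1 / 2 - δ) * (M * n : ℕ) ≤ viol c b x := by
    by_contra hcon
    push Not at hcon
    have h1 := near_count (n := n) hδ (m := M * n) (by
      push_cast
      rw [div_lt_iff₀ (by positivity)] at hM
      have : Real.log 2 * n ≤ M * δ ^ 2 * n := mul_le_mul_of_nonneg_right hM.le hn0.le
      nlinarith) c
    have h2 : (univ.filter fun b : Fin (M * n) → ZMod 2 =>
        ¬ ∀ x, (1 / 2 - δ) * (M * n : ℕ) ≤ viol c b x) = univ := by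
      refine filter_true_of_mem fun b _ => ?_
      push Not
      exact hcon b
    rw [h2, card_univ, Fintype.card_fun, ZMod.card, Fintype.card_fin] at h1
    push_cast at h1
    have h3 : (1 : ℝ) < 2 ^ n := one_lt_pow₀ (by norm_num) (by omega)
    have h4 : (0 : ℝ) < 2 ^ (M * n) := by positivity
    nlinarith
  have hbad : (q : ℝ) * (univ.filter fun j => Bad ∅ (c j)).card ≤ (M * n : ℕ) := by
    have := hc2 ∅ (by
      rw [Finset.card_empty, hξd]
      push_cast
      positivity)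
    exact_mod_cast this
  have hbad2 : ((univ.filter fun j => Bad ∅ (c j)).card : ℝ) ≤ δ * (M * n : ℕ) := by
    rw [div_lt_iff₀ hδ] at hq
    have h1 : (0 : ℝ) ≤ (univ.filter fun j => Bad ∅ (c j)).card := by positivity
    have h2 : ((univ.filter fun j => Bad ∅ (c j)).card : ℝ) ≤
        (q * δ) * (univ.filter fun j => Bad ∅ (c j)).card := by nlinarith
    calc ((univ.filter fun j => Bad ∅ (c j)).card : ℝ) ≤
        δ * (q * (univ.filter fun j => Bad ∅ (c j)).card) := by linarith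
      _ ≤ δ * (M * n : ℕ) := mul_le_mul_of_nonneg_left hbad hδ.le
  have hGc : (G.card : ℝ) + (univ.filter fun j => Bad ∅ (c j)).card = (M * n : ℕ) := by
    have := Finset.card_filter_add_card_filter_not (s := (univ : Finset (Fin (M * n))))
      (fun j => Bad ∅ (c j))
    rw [card_univ, Fintype.card_fin] at this
    rw [hG, add_comm]
    exact_mod_cast this
  have hinj : ∀ j ∈ G, Injective (c j) := by
    intro j hj
    rw [hG, mem_filter] at hj
    exact (not_not.1 hj.2).1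
  have hval : ∀ x : Fin n → ZMod 2,
      ∑ j ∈ G, (if ∑ l, x (c j l) = b j then (1 : ℝ) else 0) ≤ (1 / 2 + ρ) * G.card := by
    intro x
    have h1 := hb x
    unfold viol at h1
    have h2 : ∑ j, (if ∑ s, x (c j s) = b j then (0 : ℝ) else 1) ≤
        ∑ j ∈ G, (if ∑ s, x (c j s) = b j then (0 : ℝ) else 1) +
          (univ.filter fun j => Bad ∅ (c j)).card := by
      rw [← Finset.sum_filter_add_sum_filter_not (s := (univ : Finset (Fin (M * n))))
        (fun j => Bad ∅ (c j)), add_comm, ← hG]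
      refine add_le_add le_rfl ?_
      rw [Finset.card_eq_sum_ones]
      push_cast
      refine Finset.sum_le_sum fun j _ => ?_
      split_ifs <;> norm_num
    have h3 : ∑ j ∈ G, (if ∑ l, x (c j l) = b j then (1 : ℝ) else 0) +
        ∑ j ∈ G, (if ∑ s, x (c j s) = b j then (0 : ℝ) else 1) = G.card := by
      rw [← Finset.sum_add_distrib, Finset.card_eq_sum_ones]
      push_cast
      refine Finset.sum_congr rfl fun j _ => ?_
      split_ifs <;> norm_num
    have h4 : (0 : ℝ) ≤ G.card := by positivity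
    have h5 : (0 : ℝ) ≤ (univ.filter fun j => Bad ∅ (c j)).card := by positivity
    have h6 : (G.card : ℝ) ≤ (M * n : ℕ) := by linarith
    have h7 : (1 / 2 - 2 * δ) * G.card ≤ (1 / 2 - 2 * δ) * (M * n : ℕ) :=
      mul_le_mul_of_nonneg_left h6 (by linarith)
    have h8 : 2 * δ * G.card ≤ ρ * G.card := mul_le_mul_of_nonneg_right hδρ h4
    linarith
  have htot : ∀ b' : Fin (M * n) → ZMod 2, (total (dbl c b' G) : ℝ) = 8 * G.card := by
    intro b'
    rw [cast_total, sum_dbl]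
    simp only [Finset.sum_const, card_univ, Fintype.card_fun, ZMod.card, Fintype.card_fin,
      nsmul_eq_mul, mul_one]
    push_cast
    norm_num
    ring
  have htot0 : ∀ b' : Fin (M * n) → ZMod 2, 0 < total (dbl c b' G) := by
    intro b'
    have h1 := htot b'
    have h2 : (0 : ℝ) < total (dbl c b' G) := by
      rw [h1]
      have : (0 : ℝ) < G.card := by nlinarith
      positivity
    exact_mod_cast h2
  refine ⟨dbl c 0 G, dbl c b G, htot0 0, htot0 b, ⟨Prod.snd, ?_⟩, ?_, ?_⟩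
  · have h1 : (linSat (dbl c 0 G) Prod.snd : ℝ) = total (dbl c 0 G) := by
      rw [cast_linSat, cast_total, sum_dbl, sum_dbl]
      refine Finset.sum_congr rfl fun j _ => Finset.sum_congr rfl fun a _ => ?_
      rw [if_pos]
      rw [Pi.zero_apply, zero_add]
    exact_mod_cast h1
  · intro y
    rw [cast_linSat, sum_dbl, htot]
    have := dbl_val hinj _ hval y
    linarith
  · intro K hK1 hK
    refine dbl_wins hK1 ?_
    have h1 : Exp (row c) (∅ : Finset (Fin n))ᶜ G r0 := exp3_of c hc1 ∅ G (by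
      intro j hj
      rw [hG, mem_filter] at hj
      exact hj.2)
    rw [compl_empty] at h1
    have h2 : 4 * K ≤ r0 := by
      have h3 : (8 * K * B : ℝ) ≤ n := by
        rw [one_div, inv_mul_eq_div, le_div_iff₀ (by positivity)] at hK
        linarith
      have h4 : 8 * K * B ≤ n := by exact_mod_cast h3
      have h5 : 8 * K * B < (r0 + 1) * B := lt_of_le_of_lt h4 hrn'
      have h6 : 8 * K < r0 + 1 := lt_of_mul_lt_mul_right h5 (Nat.zero_le B)
      omega
    intro a ha hw hne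
    exact h1 a ha (hw.trans h2) hne

end Run7.h625.CW
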