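import Pool.Agent.Run7.h625.CW.Transfer
import Pool.Agent.Run7.h625.CW.Val
import Pool.Agent.Results.MP_325f1f_lc.SheraliAdamsTradeoff

/-!
Counting logic and unique games: the transfer of values, and the barrier for reductions that
preserve the equivalence of the bijective pebble game.
-/

set_option autoImplicit false
set_option linter.unusedSectionVars false

namespace Run7.h625.CW

open Finset Function

/-- the number of constraints of a unique game satisfied by `x` -/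
def ugSat {V A : Type} [Fintype V] [Fintype A] [DecidableEq A] (I : Str 2 (Equiv.Perm A) V)
    (x : V → A) : ℕ :=
  ∑ π, ∑ e : Fin 2 → V, if π (x (e 0)) = x (e 1) then I π e else 0

theorem cast_ugSat {V A : Type} [Fintype V] [Fintype A] [DecidableEq A]
    (I : Str 2 (Equiv.Perm A) V) (x : V → A) :
    (ugSat I x : ℝ) = ∑ π, ∑ e : Fin 2 → V, (I π e : ℝ) *
      (if π ((x ∘ e) 0) = (x ∘ e) 1 then 1 else 0) := by
  unfold ugSat
  push_cast
  refine Finset.sum_congr rfl fun π _ => Finset.sum_congr rfl fun e _ => ?_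
  rw [mul_ite, mul_one, mul_zero]
  rfl

theorem ug_transfer {V W A : Type} [Fintype V] [Fintype W] [Fintype A] [DecidableEq A]
    (I : Str 2 (Equiv.Perm A) V) (J : Str 2 (Equiv.Perm A) W) (r γ ε : ℝ) (K : ℕ)
    (hr : 0 < r) (hr1 : r ≤ 1) (hγ : 0 < γ) (hγ1 : γ < 1) (hε : 0 < ε)
    (hεγ : 2 ^ 32 * (ε * Real.log (2 / r)) ≤ r * γ ^ 2) (hK2 : 2 ≤ K)
    (hK : 2 ^ 42 * (Real.log (2 / γ) * (Fintype.card V : ℝ) ^ r
      + (Fintype.card V : ℝ) ^ (r / 2) / (r ^ 2 * ε ^ 4)) ≤ K)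
    (h : DuplicatorWins K I J) (x : V → A) (hx : (1 - ε) * (total I : ℝ) ≤ ugSat I x) :
    ∃ y : W → A, (1 - γ) * (total J : ℝ) ≤ ugSat J y := by
  classical
  obtain ⟨L, hL1, hL2, hL3⟩ := transfer (by norm_num) hK2 h x
  have hcardVW : Fintype.card V = Fintype.card W := by
    obtain ⟨S, h0, hS⟩ := h
    obtain ⟨f, -⟩ := (hS _ h0).2 ⟨0, by omega⟩
    exact Fintype.card_congr f
  have hE : ∀ φ : Equiv.Perm A → (Fin 2 → W) → ℝ,
      ∑ e : (π : Equiv.Perm A) × (w : Fin 2 → W) × Fin (J π w), φ e.1 e.2.1 =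
        ∑ π, ∑ w, (J π w : ℝ) * φ π w := by
    intro φ
    rw [Fintype.sum_sigma]
    refine Finset.sum_congr rfl fun π _ => ?_
    rw [Fintype.sum_sigma]
    refine Finset.sum_congr rfl fun w _ => ?_
    simp only [Finset.sum_const, card_univ, Fintype.card_fin, nsmul_eq_mul]
  have hEc : (Fintype.card ((π : Equiv.Perm A) × (w : Fin 2 → W) × Fin (J π w)) : ℝ) =
      total J := by
    rw [cast_total, ← hE fun _ _ => (1 : ℝ), Finset.sum_const, card_univ, nsmul_eq_mul, mul_one]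
  have htot : (total I : ℝ) = total J := by
    have h1 := hL3 fun _ _ => 1
    rw [cast_total, cast_total, ← h1]
    refine Finset.sum_congr rfl fun π _ => Finset.sum_congr rfl fun w _ => ?_
    rw [hL1]
  have hsat : (ugSat I x : ℝ) = ∑ e : (π : Equiv.Perm A) × (w : Fin 2 → W) × Fin (J π w),
      L (fun y => if e.1 (y (e.2.1 0)) = y (e.2.1 1) then 1 else 0) := by
    rw [cast_ugSat, hE fun π w => L (fun y => if π (y (w 0)) = y (w 1) then 1 else 0)]
    exact (hL3 fun π t => if π (t 0) = t 1 then 1 else 0).symm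
  obtain ⟨y, hy⟩ := Pool.Agent.Results.MP_325f1f_lc.SheraliAdamsTradeoff.result W A
    ((π : Equiv.Perm A) × (w : Fin 2 → W) × Fin (J π w)) (fun e => e.2.1 0) (fun e => e.2.1 1)
    (fun e => e.1) r γ ε K L hr hr1 hγ hγ1 hε hεγ (by rw [← hcardVW]; exact hK)
    ⟨hL1, fun S hS f hf hf0 => hL2 S hS f hf hf0⟩ (by rw [hEc, ← htot, ← hsat]; exact hx)
  refine ⟨y, ?_⟩
  rw [hEc] at hy
  refine hy.trans (le_of_eq ?_)
  rw [cast_ugSat, ← hE fun π w => if π ((y ∘ w) 0) = (y ∘ w) 1 then (1 : ℝ) else 0,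
    Finset.card_filter]
  push_cast
  rfl

/-- a finite structure with its vertex set -/
structure Inst (r : ℕ) (Γ : Type) where
  /-- the vertices -/
  V : Type
  /-- the vertex set is finite -/
  fin : Fintype V
  /-- the multiplicities -/
  str : Str r Γ V

attribute [instance] Inst.fin

/-- `R` reduces the approximation of systems of linear equations modulo two with three variables
per equation (satisfiable against value at most `1 / 2 + ρ`, nonempty systems) to unique games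
(value at least `1 - ε` against value less than `1 - γ`), with vertex sets of size at most
`B * N ^ d`, and maps systems which are equivalent with `d * k + l` pebbles to games which are
equivalent with `k` pebbles. -/
structure IsReduction (ε γ ρ : ℝ) (d l B : ℕ) (A : ℕ → Type) [∀ N, Fintype (A N)]
    [∀ N, DecidableEq (A N)]
    (R : ∀ N : ℕ, Str 3 (ZMod 2) (Fin N) → Inst 2 (Equiv.Perm (A N))) : Prop where
  size : ∀ N I, Fintype.card (R N I).V ≤ B * N ^ d
  invariant : ∀ N I J k, DuplicatorWins (d * k + l) I J →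
    DuplicatorWins k (R N I).str (R N J).str
  complete : ∀ N I, 0 < total I → (∃ x, linSat I x = total I) →
    ∃ x, (1 - ε) * (total (R N I).str : ℝ) ≤ ugSat (R N I).str x
  sound : ∀ N I, 0 < total I → (∀ x, (linSat I x : ℝ) ≤ (1 / 2 + ρ) * total I) →
    ∀ x, (ugSat (R N I).str x : ℝ) < (1 - γ) * total (R N I).str

/-- relabeling of the vertices -/
def relabel {r : ℕ} {Γ V V' : Type} (e : V' ≃ V) (I : Str r Γ V) : Str r Γ V' :=
  fun z w => I z (e ∘ w)

theorem total_relabel {r : ℕ} {Γ V V' : Type} [Fintype Γ] [Fintype V] [Fintype V'] (e : V' ≃ V)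
    (I : Str r Γ V) : total (relabel e I) = total I := by
  unfold total relabel
  refine Finset.sum_congr rfl fun z _ => ?_
  exact Equiv.sum_comp (Equiv.arrowCongr (Equiv.refl (Fin r)) e) fun w => I z w

theorem linSat_relabel {V V' : Type} [Fintype V] [Fintype V'] (e : V' ≃ V)
    (I : Str 3 (ZMod 2) V) (x : V' → ZMod 2) :
    linSat (relabel e I) x = linSat I (x ∘ e.symm) := by
  unfold linSat relabel
  refine Finset.sum_congr rfl fun z _ => ?_
  rw [← Equiv.sum_comp (Equiv.arrowCongr (Equiv.refl (Fin 3)) e)]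
  refine Finset.sum_congr rfl fun w _ => ?_
  simp only [Function.comp_apply, Equiv.arrowCongr_apply, Equiv.refl_symm, Equiv.coe_refl,
    id_eq, Equiv.symm_apply_apply]
  rfl

theorem wins_relabel {r K : ℕ} {Γ V V' W W' : Type} (e : V' ≃ V) (e' : W' ≃ W)
    {I : Str r Γ V} {J : Str r Γ W} (h : DuplicatorWins K I J) :
    DuplicatorWins K (relabel e I) (relabel e' J) := by
  obtain ⟨S, h0, hS⟩ := h
  refine ⟨{p | (fun i => (p i).map (Prod.map e e')) ∈ S}, h0, ?_⟩
  intro p hp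
  obtain ⟨⟨h1, h2⟩, h3⟩ := hS _ hp
  refine ⟨⟨?_, ?_⟩, ?_⟩
  · intro i j a b hi hj
    have := h1 i j (Prod.map e e' a) (Prod.map e e' b) (by
      show (p i).map (Prod.map e e') = _
      rw [hi]; rfl) (by
      show (p j).map (Prod.map e e') = _
      rw [hj]; rfl)
    simpa using this
  · intro z σ a ha
    have := h2 z σ (fun l => Prod.map e e' (a l)) (fun l => by
      show (p (σ l)).map (Prod.map e e') = _
      rw [ha l]; rfl)
    exact this
  · intro i
    obtain ⟨f, hf⟩ := h3 i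
    refine ⟨e.trans (f.trans e'.symm), fun v => ?_⟩
    have := hf (e v)
    show (fun j => (update p i _ j).map (Prod.map e e')) ∈ S
    convert this using 1
    funext j
    by_cases hj : j = i
    · subst hj; simp
    · simp [update_of_ne hj]

theorem eventually_small (C1 C2 s κ : ℝ) (hs : s < 1) (hκ : 0 < κ) (hC1 : 0 ≤ C1) :
    ∃ n1 : ℕ, ∀ n : ℕ, n1 ≤ n → C1 * (n : ℝ) ^ s + C2 ≤ κ * n := by
  have h1 : Filter.Tendsto (fun n : ℕ => C1 * (n : ℝ) ^ (-(1 - s))) Filter.atTop (nhds 0) := by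
    have := ((tendsto_rpow_neg_atTop (by linarith : (0 : ℝ) < 1 - s)).comp
      tendsto_natCast_atTop_atTop).const_mul C1
    simpa using this
  have h2 : ∀ᶠ n : ℕ in Filter.atTop, C1 * (n : ℝ) ^ (-(1 - s)) < κ / 2 :=
    h1.eventually (gt_mem_nhds (by positivity))
  have h3 : ∀ᶠ n : ℕ in Filter.atTop, 2 * C2 / κ ≤ (n : ℝ) :=
    tendsto_natCast_atTop_atTop.eventually (Filter.eventually_ge_atTop _)
  obtain ⟨n1, hn1⟩ := Filter.eventually_atTop.1 ((h2.and h3).and (Filter.eventually_ge_atTop 1))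
  refine ⟨n1, fun n hn => ?_⟩
  obtain ⟨⟨h4, h5⟩, h6⟩ := hn1 n hn
  have h6' : (0 : ℝ) < n := by exact_mod_cast h6
  have h7 : (n : ℝ) ^ s = (n : ℝ) ^ (-(1 - s)) * n := by
    rw [← Real.rpow_add_one h6'.ne']
    congr 1
    ring
  rw [div_le_iff₀ hκ] at h5
  rw [h7, ← mul_assoc]
  have h8 : C1 * (n : ℝ) ^ (-(1 - s)) * n ≤ κ / 2 * n := mul_le_mul_of_nonneg_right h4.le h6'.le
  linarith

theorem barrier (ε γ ρ : ℝ) (hε : 0 < ε) (hε1 : ε ≤ 1 / 2) (hγ : 0 < γ) (hγ1 : γ < 1)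
    (hρ : 0 < ρ) (d l B : ℕ) (hd : 1 ≤ d)
    (hdε : (d : ℝ) * (2 ^ 34 * (ε * Real.log (1 / ε))) < γ ^ 2)
    (A : ℕ → Type) [∀ N, Fintype (A N)] [∀ N, DecidableEq (A N)]
    (R : ∀ N : ℕ, Str 3 (ZMod 2) (Fin N) → Inst 2 (Equiv.Perm (A N))) :
    ¬ IsReduction ε γ ρ d l B A R := by
  intro hR
  have hlog2 : (1 : ℝ) / 2 < Real.log 2 := by
    have := Real.log_two_gt_d9; linarith
  have hlogε : Real.log 2 ≤ Real.log (1 / ε) := by
    refine Real.log_le_log (by norm_num) ?_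
    rw [le_div_iff₀ hε]; linarith
  have hlogε0 : 0 < Real.log (1 / ε) := by linarith
  have hd0 : (1 : ℝ) ≤ d := by exact_mod_cast hd
  obtain ⟨r, hr⟩ : ∃ r : ℝ, r = 2 ^ 34 * (ε * Real.log (1 / ε)) / γ ^ 2 := ⟨_, rfl⟩
  have hγ2 : 0 < γ ^ 2 := by positivity
  have hrγ : r * γ ^ 2 = 2 ^ 34 * (ε * Real.log (1 / ε)) := by
    rw [hr]; field_simp
  have hr0 : 0 < r := by rw [hr]; positivity
  have hdr : (d : ℝ) * r < 1 := by
    rw [hr, ← mul_div_assoc, div_lt_one hγ2]; exact hdε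
  have hr1 : r < 1 := by nlinarith
  have hεγ : 2 ^ 32 * (ε * Real.log (2 / r)) ≤ r * γ ^ 2 := by
    rw [hrγ]
    have h1 : 2 * ε ^ 4 ≤ r := by
      have hγ3 : γ ^ 2 ≤ 1 := by nlinarith
      have h2 : r * γ ^ 2 ≤ r := by nlinarith
      have h3 : 2 ^ 34 * (ε * (1 / 2)) ≤ 2 ^ 34 * (ε * Real.log (1 / ε)) := by
        have : ε * (1 / 2) ≤ ε * Real.log (1 / ε) :=
          mul_le_mul_of_nonneg_left (by linarith) hε.le
        linarith
      have h4 : ε ^ 4 ≤ ε := by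
        calc ε ^ 4 = ε * ε ^ 3 := by ring
          _ ≤ ε * 1 := mul_le_mul_of_nonneg_left (pow_le_one₀ hε.le (by linarith)) hε.le
          _ = ε := mul_one _
      rw [hrγ] at h2
      norm_num at h2 h3 ⊢
      linarith
    have h2 : Real.log (2 / r) ≤ 4 * Real.log (1 / ε) := by
      rw [← Real.log_rpow (by positivity)]
      refine Real.log_le_log (by positivity) ?_
      rw [show (4 : ℝ) = ((4 : ℕ) : ℝ) by norm_num, Real.rpow_natCast, one_div, inv_pow,
        ← one_div, div_le_div_iff₀ hr0 (by positivity)]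
      linarith
    have h3 : ε * Real.log (2 / r) ≤ ε * (4 * Real.log (1 / ε)) :=
      mul_le_mul_of_nonneg_left h2 hε.le
    norm_num at h3 ⊢
    linarith
  -- the constants
  obtain ⟨κ, hκ, n0, hn01, hpair⟩ := exists_pair ρ hρ
  have hlγ : 0 < Real.log (2 / γ) := by
    refine Real.log_pos ?_
    rw [lt_div_iff₀ hγ]; linarith
  obtain ⟨C, hC⟩ : ∃ C : ℝ, C = 2 ^ 42 * (Real.log (2 / γ) + 1 / (r ^ 2 * ε ^ 4)) := ⟨_, rfl⟩
  have hC0 : 0 < C := by rw [hC]; positivity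
  obtain ⟨C1, hC1⟩ : ∃ C1 : ℝ, C1 = C * ((B + 1 : ℝ) * 2 ^ d) ^ r := ⟨_, rfl⟩
  have hC10 : 0 ≤ C1 := by rw [hC1]; positivity
  obtain ⟨n1, hn1⟩ := eventually_small (d * C1) (3 * d + l) (d * r) κ hdr hκ (by positivity)
  obtain ⟨n, hn⟩ : ∃ n, n = max n0 n1 := ⟨_, rfl⟩
  have hnn0 : n0 ≤ n := by rw [hn]; exact le_max_left _ _
  have hnn1 : n1 ≤ n := by rw [hn]; exact le_max_right _ _
  have hnpos : (1 : ℝ) ≤ n := by exact_mod_cast hn01.trans hnn0
  obtain ⟨I, J, hI, hJ, ⟨x0, hx0⟩, hJv, hwin⟩ := hpair n hnn0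
  obtain ⟨K, hKd⟩ : ∃ K : ℕ, K = ⌈C1 * (n : ℝ) ^ (d * r)⌉₊ + 2 := ⟨_, rfl⟩
  have hKl : C1 * (n : ℝ) ^ (d * r) ≤ K := by
    rw [hKd]
    push_cast
    have := Nat.le_ceil (C1 * (n : ℝ) ^ (d * r))
    linarith
  have hKu : (K : ℝ) ≤ C1 * (n : ℝ) ^ (d * r) + 3 := by
    rw [hKd]
    push_cast
    have := Nat.ceil_lt_add_one (show 0 ≤ C1 * (n : ℝ) ^ (d * r) by positivity)
    linarith
  have hK2 : 2 ≤ K := by omega
  have e : Fin (2 * n) ≃ Fin n × ZMod 2 := Fintype.equivOfCardEq (by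
    rw [Fintype.card_prod, Fintype.card_fin, Fintype.card_fin, ZMod.card, mul_comm])
  have hdK : 1 ≤ d * K + l := by
    have : 1 * 2 ≤ d * K := Nat.mul_le_mul hd hK2
    omega
  have hw : DuplicatorWins (d * K + l) (relabel e I) (relabel e J) := by
    refine wins_relabel e e (hwin _ hdK ?_)
    have h1 := hn1 n hnn1
    push_cast
    have h2 : (d : ℝ) * K ≤ d * (C1 * (n : ℝ) ^ (d * r) + 3) :=
      mul_le_mul_of_nonneg_left hKu (by positivity)
    linarith
  have hw2 := hR.invariant _ _ _ K hw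
  obtain ⟨x, hx⟩ := hR.complete (2 * n) (relabel e I) (by rw [total_relabel]; exact hI)
    ⟨x0 ∘ e, by
      rw [linSat_relabel, total_relabel, ← hx0]
      congr 1
      funext v
      simp⟩
  have hsize : ((Fintype.card (R (2 * n) (relabel e I)).V : ℕ) : ℝ) ≤
      (B + 1 : ℝ) * 2 ^ d * (n : ℝ) ^ d := by
    have h1 := hR.size (2 * n) (relabel e I)
    have h2 : ((Fintype.card (R (2 * n) (relabel e I)).V : ℕ) : ℝ) ≤ B * (2 * n) ^ d := by
      exact_mod_cast h1
    rw [mul_pow] at h2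
    have h3 : (0 : ℝ) ≤ 2 ^ d * (n : ℝ) ^ d := by positivity
    nlinarith
  obtain ⟨y, hy⟩ := ug_transfer _ _ r γ ε K hr0 hr1.le hγ hγ1 hε hεγ hK2 (by
    refine le_trans ?_ hKl
    obtain ⟨X, hX⟩ : ∃ X : ℝ, X = (B + 1 : ℝ) * 2 ^ d * (n : ℝ) ^ d := ⟨_, rfl⟩
    have hX1 : 1 ≤ X := by
      rw [hX]
      have h1 : (1 : ℝ) ≤ (B + 1 : ℝ) := by
        have : (0 : ℝ) ≤ B := by positivity
        linarith
      have h2 : (1 : ℝ) ≤ 2 ^ d := one_le_pow₀ (by norm_num)
      have h3 : (1 : ℝ) ≤ (n : ℝ) ^ d := one_le_pow₀ hnpos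
      have h4 : (1 : ℝ) ≤ (B + 1 : ℝ) * 2 ^ d := one_le_mul_of_one_le_of_one_le h1 h2
      exact one_le_mul_of_one_le_of_one_le h4 h3
    have e1 : C1 * (n : ℝ) ^ (d * r) = C * X ^ r := by
      rw [hX, Real.mul_rpow (by positivity) (by positivity), hC1, ← Real.rpow_natCast (n : ℝ) d,
        ← Real.rpow_mul (by positivity)]
      ring
    rw [e1, hC]
    rw [← hX] at hsize
    have h1 : ((Fintype.card (R (2 * n) (relabel e I)).V : ℕ) : ℝ) ^ r ≤ X ^ r :=
      Real.rpow_le_rpow (by positivity) hsize hr0.le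
    have h2 : ((Fintype.card (R (2 * n) (relabel e I)).V : ℕ) : ℝ) ^ (r / 2) ≤ X ^ r :=
      (Real.rpow_le_rpow (by positivity) hsize (by positivity)).trans
        (Real.rpow_le_rpow_of_exponent_le hX1 (by linarith))
    have h3 : Real.log (2 / γ) * ((Fintype.card (R (2 * n) (relabel e I)).V : ℕ) : ℝ) ^ r ≤
        Real.log (2 / γ) * X ^ r := mul_le_mul_of_nonneg_left h1 hlγ.le
    have h4 : ((Fintype.card (R (2 * n) (relabel e I)).V : ℕ) : ℝ) ^ (r / 2) / (r ^ 2 * ε ^ 4) ≤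
        X ^ r / (r ^ 2 * ε ^ 4) := div_le_div_of_nonneg_right h2 (by positivity)
    calc 2 ^ 42 * (Real.log (2 / γ) * ((Fintype.card (R (2 * n) (relabel e I)).V : ℕ) : ℝ) ^ r +
          ((Fintype.card (R (2 * n) (relabel e I)).V : ℕ) : ℝ) ^ (r / 2) / (r ^ 2 * ε ^ 4)) ≤
        2 ^ 42 * (Real.log (2 / γ) * X ^ r + X ^ r / (r ^ 2 * ε ^ 4)) :=
          mul_le_mul_of_nonneg_left (add_le_add h3 h4) (by positivity)
      _ = 2 ^ 42 * (Real.log (2 / γ) + 1 / (r ^ 2 * ε ^ 4)) * X ^ r := by ring) hw2 x hx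
  have hs := hR.sound (2 * n) (relabel e J) (by rw [total_relabel]; exact hJ) (by
    intro x
    rw [linSat_relabel, total_relabel]
    exact hJv _) y
  linarith

end Run7.h625.CW
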