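import Mathlib

/-!
The bijective pebble game (Hella) on weighted relational structures, and counting lemmas for its
equivalence classes.
-/

set_option autoImplicit false
set_option linter.unusedSectionVars false

namespace Run7.h625.CW

open Finset

/-- A weighted relational structure on `V`: for every relation symbol `c` in `Γ`, of arity `r`, the
multiplicity of every `r`-tuple. -/
abbrev Str (r : ℕ) (Γ V : Type) : Type := Γ → (Fin r → V) → ℕ

/-- The pebbled pairs form a local isomorphism: same equalities, same multiplicities. -/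
def LocIso {r K : ℕ} {Γ V W : Type} (I : Str r Γ V) (J : Str r Γ W)
    (p : Fin K → Option (V × W)) : Prop :=
  (∀ i j a b, p i = some a → p j = some b → (a.1 = b.1 ↔ a.2 = b.2)) ∧
  ∀ (c : Γ) (σ : Fin r → Fin K) (a : Fin r → V × W), (∀ l, p (σ l) = some (a l)) →
    I c (fun l => (a l).1) = J c (fun l => (a l).2)

/-- Duplicator wins the bijective `K`-pebble game on `I` and `J`. -/
def DuplicatorWins (K : ℕ) {r : ℕ} {Γ V W : Type} (I : Str r Γ V) (J : Str r Γ W) : Prop :=
  ∃ S : Set (Fin K → Option (V × W)), (fun _ => none) ∈ S ∧ ∀ p ∈ S, LocIso I J p ∧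
    ∀ i, ∃ f : V ≃ W, ∀ v, Function.update p i (some (v, f v)) ∈ S

section

variable {r K : ℕ} {Γ U V W : Type}

/-- strategies on full positions -/
structure IsStrat (I : Str r Γ V) (J : Str r Γ W) (R : (Fin K → V) → (Fin K → W) → Prop) :
    Prop where
  eq : ∀ p q, R p q → ∀ i j, p i = p j ↔ q i = q j
  wt : ∀ p q, R p q → ∀ (c : Γ) (σ : Fin r → Fin K), I c (p ∘ σ) = J c (q ∘ σ)
  move : ∀ p q, R p q → ∀ i, ∃ f : V ≃ W, ∀ v,
    R (Function.update p i v) (Function.update q i (f v))

/-- the full position `(p, q)` is winning for Duplicator -/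
def Win (I : Str r Γ V) (J : Str r Γ W) (p : Fin K → V) (q : Fin K → W) : Prop :=
  ∃ R, IsStrat I J R ∧ R p q

theorem win_isStrat (I : Str r Γ V) (J : Str r Γ W) : IsStrat (K := K) I J (Win I J) := by
  refine ⟨?_, ?_, ?_⟩
  · rintro p q ⟨R, hR, h⟩
    exact hR.eq p q h
  · rintro p q ⟨R, hR, h⟩
    exact hR.wt p q h
  · rintro p q ⟨R, hR, h⟩ i
    obtain ⟨f, hf⟩ := hR.move p q h i
    exact ⟨f, fun v => ⟨R, hR, hf v⟩⟩

theorem win_refl (I : Str r Γ V) (p : Fin K → V) : Win I I p p := by
  refine ⟨fun p q => p = q, ⟨?_, ?_, ?_⟩, rfl⟩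
  · rintro p q rfl i j; exact Iff.rfl
  · rintro p q rfl c σ; rfl
  · rintro p q rfl i; exact ⟨Equiv.refl V, fun v => rfl⟩

theorem win_symm {I : Str r Γ V} {J : Str r Γ W} {p : Fin K → V} {q : Fin K → W}
    (h : Win I J p q) : Win J I q p := by
  refine ⟨fun q p => Win I J p q, ⟨?_, ?_, ?_⟩, h⟩
  · intro q p h i j; exact ((win_isStrat I J).eq p q h i j).symm
  · intro q p h c σ; exact ((win_isStrat I J).wt p q h c σ).symm
  · intro q p h i
    obtain ⟨f, hf⟩ := (win_isStrat I J).move p q h i
    refine ⟨f.symm, fun v => ?_⟩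
    have := hf (f.symm v)
    rwa [Equiv.apply_symm_apply] at this

theorem win_trans {I : Str r Γ U} {J : Str r Γ V} {L : Str r Γ W} {p : Fin K → U} {q : Fin K → V}
    {s : Fin K → W} (h : Win I J p q) (h' : Win J L q s) : Win I L p s := by
  refine ⟨fun p s => ∃ q, Win I J p q ∧ Win J L q s, ⟨?_, ?_, ?_⟩, q, h, h'⟩
  · rintro p s ⟨q, h, h'⟩ i j
    exact ((win_isStrat I J).eq p q h i j).trans ((win_isStrat J L).eq q s h' i j)
  · rintro p s ⟨q, h, h'⟩ c σ
    exact ((win_isStrat I J).wt p q h c σ).trans ((win_isStrat J L).wt q s h' c σ)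
  · rintro p s ⟨q, h, h'⟩ i
    obtain ⟨f, hf⟩ := (win_isStrat I J).move p q h i
    obtain ⟨g, hg⟩ := (win_isStrat J L).move q s h' i
    exact ⟨f.trans g, fun v => ⟨_, hf v, hg (f v)⟩⟩

theorem exists_spare (σ : Fin K → Fin K) (i : Fin K) : ∃ i' : Fin K, ∀ j, j ≠ i → σ j ≠ i' := by
  classical
  by_contra hcon
  push Not at hcon
  have h1 : (univ : Finset (Fin K)) ⊆ (univ.erase i).image σ := by
    intro i' _
    obtain ⟨j, hj, h⟩ := hcon i'
    exact mem_image.2 ⟨j, mem_erase.2 ⟨hj, mem_univ _⟩, h⟩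
  have h2 := (Finset.card_le_card h1).trans Finset.card_image_le
  rw [Finset.card_erase_of_mem (mem_univ i), card_univ, Fintype.card_fin] at h2
  have := i.pos
  omega

theorem win_comp {I : Str r Γ V} {J : Str r Γ W} {p : Fin K → V} {q : Fin K → W}
    (h : Win I J p q) (σ : Fin K → Fin K) : Win I J (p ∘ σ) (q ∘ σ) := by
  refine ⟨fun p' q' => ∃ (p : Fin K → V) (q : Fin K → W) (σ : Fin K → Fin K), Win I J p q ∧
    p' = p ∘ σ ∧ q' = q ∘ σ, ⟨?_, ?_, ?_⟩, p, q, σ, h, rfl, rfl⟩
  · rintro _ _ ⟨p, q, σ, h, rfl, rfl⟩ i j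
    exact (win_isStrat I J).eq p q h (σ i) (σ j)
  · rintro _ _ ⟨p, q, σ, h, rfl, rfl⟩ c τ
    exact (win_isStrat I J).wt p q h c (σ ∘ τ)
  · rintro _ _ ⟨p, q, σ, h, rfl, rfl⟩ i
    obtain ⟨i', hi'⟩ := exists_spare σ i
    obtain ⟨f, hf⟩ := (win_isStrat I J).move p q h i'
    refine ⟨f, fun v => ⟨_, _, Function.update σ i i', hf v, ?_, ?_⟩⟩
    · funext j
      by_cases hj : j = i
      · subst hj; simp
      · simp [Function.update_of_ne hj, Function.update_of_ne (hi' j hj)]
    · funext j
      by_cases hj : j = i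
      · subst hj; simp
      · simp [Function.update_of_ne hj, Function.update_of_ne (hi' j hj)]

/-- the full positions of a strategy of the pebble game -/
theorem isStrat_of {I : Str r Γ V} {J : Str r Γ W} {S : Set (Fin K → Option (V × W))}
    (hS : ∀ p ∈ S, LocIso I J p ∧ ∀ i, ∃ f : V ≃ W, ∀ v, Function.update p i (some (v, f v)) ∈ S) :
    IsStrat I J (fun p q => (fun i => some (p i, q i)) ∈ S) := by
  refine ⟨?_, ?_, ?_⟩
  · intro p q h i j
    exact (hS _ h).1.1 i j (p i, q i) (p j, q j) rfl rfl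
  · intro p q h c σ
    exact (hS _ h).1.2 c σ (fun l => (p (σ l), q (σ l))) (fun l => rfl)
  · intro p q h i
    obtain ⟨f, hf⟩ := (hS _ h).2 i
    refine ⟨f, fun v => ?_⟩
    convert hf v using 1
    funext j
    by_cases hj : j = i
    · subst hj; simp
    · simp [Function.update_of_ne hj]

theorem exists_left {I : Str r Γ V} {J : Str r Γ W} (h : DuplicatorWins K I J) (q : Fin K → W) :
    ∃ p, Win I J p q := by
  classical
  obtain ⟨S, h0, hS⟩ := h
  have key : ∀ D : Finset (Fin K), ∃ s ∈ S, ∀ i ∈ D, ∃ a, s i = some (a, q i) := by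
    intro D
    induction D using Finset.induction_on with
    | empty => exact ⟨_, h0, fun i hi => absurd hi (notMem_empty i)⟩
    | insert i D _ ih =>
      obtain ⟨s, hs, h1⟩ := ih
      obtain ⟨f, hf⟩ := (hS s hs).2 i
      refine ⟨_, hf (f.symm (q i)), fun j hj => ?_⟩
      by_cases hji : j = i
      · subst hji; exact ⟨f.symm (q j), by simp⟩
      · rw [Function.update_of_ne hji]
        exact h1 j ((mem_insert.1 hj).resolve_left hji)
  obtain ⟨s, hs, h1⟩ := key univ
  choose p hp using fun i => h1 i (mem_univ i)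
  refine ⟨p, _, isStrat_of hS, ?_⟩
  have : (fun i => some (p i, q i)) = s := funext fun i => (hp i).symm
  show (fun i => some (p i, q i)) ∈ S
  rw [this]; exact hs

theorem exists_right {I : Str r Γ V} {J : Str r Γ W} (h : DuplicatorWins K I J) (p : Fin K → V) :
    ∃ q, Win I J p q := by
  classical
  obtain ⟨S, h0, hS⟩ := h
  have key : ∀ D : Finset (Fin K), ∃ s ∈ S, ∀ i ∈ D, ∃ a, s i = some (p i, a) := by
    intro D
    induction D using Finset.induction_on with
    | empty => exact ⟨_, h0, fun i hi => absurd hi (notMem_empty i)⟩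
    | insert i D _ ih =>
      obtain ⟨s, hs, h1⟩ := ih
      obtain ⟨f, hf⟩ := (hS s hs).2 i
      refine ⟨_, hf (p i), fun j hj => ?_⟩
      by_cases hji : j = i
      · subst hji; exact ⟨f (p j), by simp⟩
      · rw [Function.update_of_ne hji]
        exact h1 j ((mem_insert.1 hj).resolve_left hji)
  obtain ⟨s, hs, h1⟩ := key univ
  choose q hq using fun i => h1 i (mem_univ i)
  refine ⟨q, _, isStrat_of hS, ?_⟩
  have : (fun i => some (p i, q i)) = s := funext fun i => (hq i).symm
  show (fun i => some (p i, q i)) ∈ S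
  rw [this]; exact hs

open Classical in
/-- equivalent positions have the same number of extensions in a class -/
theorem card_ext [Fintype V] [Fintype W] {I : Str r Γ V} {J : Str r Γ W}
    (C : (Fin K → V) → Prop) (C' : (Fin K → W) → Prop)
    (hC : ∀ p q, Win I J p q → (C p ↔ C' q)) (D : Finset (Fin K)) :
    ∀ p1 q1, Win I J p1 q1 →
      (univ.filter fun p => C p ∧ ∀ i, i ∉ D → p i = p1 i).card =
      (univ.filter fun q => C' q ∧ ∀ i, i ∉ D → q i = q1 i).card := by
  have h0 : ∀ (X : Type) [Fintype X] (P : (Fin K → X) → Prop) (p1 : Fin K → X),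
      (univ.filter fun p => P p ∧ ∀ i, i ∉ (∅ : Finset (Fin K)) → p i = p1 i).card =
        if P p1 then 1 else 0 := by
    intro X _ P p1
    split_ifs with h
    · rw [Finset.card_eq_one]
      refine ⟨p1, ?_⟩
      ext p
      rw [mem_filter, mem_singleton]
      constructor
      · rintro ⟨-, -, h2⟩
        exact funext fun i => h2 i (notMem_empty i)
      · rintro rfl
        exact ⟨mem_univ _, h, fun _ _ => rfl⟩
    · rw [Finset.card_eq_zero, Finset.filter_eq_empty_iff]
      rintro p - ⟨h1, h2⟩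
      apply h
      have : p = p1 := funext fun i => h2 i (notMem_empty i)
      rwa [← this]
  have hs : ∀ (X : Type) [Fintype X] (P : (Fin K → X) → Prop) (p1 : Fin K → X) (i : Fin K)
      (D : Finset (Fin K)), i ∉ D →
      (univ.filter fun p => P p ∧ ∀ j, j ∉ insert i D → p j = p1 j).card =
        ∑ v, (univ.filter fun p => P p ∧ ∀ j, j ∉ D → p j = Function.update p1 i v j).card := by
    intro X _ P p1 i D hi
    rw [← Finset.card_biUnion]
    · congr 1
      ext p
      rw [mem_filter, mem_biUnion]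
      constructor
      · rintro ⟨-, h1, h2⟩
        refine ⟨p i, mem_univ _, mem_filter.2 ⟨mem_univ _, h1, fun j hj => ?_⟩⟩
        by_cases hji : j = i
        · subst hji; simp
        · rw [Function.update_of_ne hji]
          exact h2 j (by rw [mem_insert]; tauto)
      · rintro ⟨v, -, hv⟩
        obtain ⟨-, h1, h2⟩ := mem_filter.1 hv
        refine ⟨mem_univ _, h1, fun j hj => ?_⟩
        rw [mem_insert] at hj
        push Not at hj
        have := h2 j hj.2
        rwa [Function.update_of_ne hj.1] at this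
    · intro v _ v' _ hvv
      rw [Function.onFun, Finset.disjoint_left]
      intro p hp hp'
      obtain ⟨-, -, h2⟩ := mem_filter.1 hp
      obtain ⟨-, -, h2'⟩ := mem_filter.1 hp'
      have h3 := h2 i hi
      have h4 := h2' i hi
      rw [Function.update_self] at h3 h4
      exact hvv (h3.symm.trans h4)
  induction D using Finset.induction_on with
  | empty =>
    intro p1 q1 h
    rw [h0 V C p1, h0 W C' q1]
    simp only [hC p1 q1 h]
  | insert i D hi ih =>
    intro p1 q1 h
    rw [hs V C p1 i D hi, hs W C' q1 i D hi]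
    obtain ⟨f, hf⟩ := (win_isStrat I J).move p1 q1 h i
    rw [← Equiv.sum_comp f]
    exact Finset.sum_congr rfl fun v _ => ih _ _ (hf v)

end

end Run7.h625.CW
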