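import Mathlib

/-!
Consistent local distributions extend to one linear functional.
-/

set_option autoImplicit false
set_option linter.unusedSectionVars false

namespace Run7.h625.CW

open Finset

/-- `F` depends only on the values on `S`. -/
def DepOn {W B : Type} (S : Finset W) (F : (W → B) → ℝ) : Prop :=
  ∀ x y : W → B, (∀ v ∈ S, x v = y v) → F x = F y

section

variable {W B : Type} [Fintype W] [DecidableEq W] (b0 : B)

/-- the values outside `T` are replaced by `b0` -/
def cut (T : Finset W) (g : W → B) : W → B := fun w => if w ∈ T then g w else b0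

/-- a component of a function -/
noncomputable def mob (S : Finset W) : ((W → B) → ℝ) →ₗ[ℝ] ((W → B) → ℝ) :=
  ∑ T ∈ S.powerset, ((-1 : ℝ) ^ (S.card - T.card)) • LinearMap.funLeft ℝ ℝ (cut b0 T)

theorem mob_apply (S : Finset W) (F : (W → B) → ℝ) (g : W → B) :
    mob b0 S F g = ∑ T ∈ S.powerset, (-1 : ℝ) ^ (S.card - T.card) * F (cut b0 T g) := by
  unfold mob
  rw [LinearMap.sum_apply, Finset.sum_apply]
  rfl

theorem mob_dep (S : Finset W) (F : (W → B) → ℝ) : DepOn S (mob b0 S F) := by
  intro x y h
  rw [mob_apply, mob_apply]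
  refine Finset.sum_congr rfl fun T hT => ?_
  have : cut b0 T x = cut b0 T y := by
    funext w
    unfold cut
    split_ifs with hw
    · exact h w (mem_powerset.1 hT hw)
    · rfl
  rw [this]

theorem mob_zero {S0 S : Finset W} {F : (W → B) → ℝ} (hF : DepOn S0 F) (hS : ¬ S ⊆ S0) :
    mob b0 S F = 0 := by
  obtain ⟨w, hw, hw0⟩ := Finset.not_subset.1 hS
  funext g
  rw [mob_apply, Pi.zero_apply]
  obtain ⟨S', hS', rfl⟩ : ∃ S', w ∉ S' ∧ insert w S' = S :=
    ⟨S.erase w, notMem_erase w S, insert_erase hw⟩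
  rw [Finset.sum_powerset_insert hS', ← Finset.sum_add_distrib]
  refine Finset.sum_eq_zero fun T hT => ?_
  have hTS := mem_powerset.1 hT
  have hwT : w ∉ T := fun h => hS' (hTS h)
  have h1 : F (cut b0 (insert w T) g) = F (cut b0 T g) := by
    refine hF _ _ fun v hv => ?_
    have hvw : v ≠ w := fun h => hw0 (h ▸ hv)
    unfold cut
    simp [hvw]
  have h2 := Finset.card_le_card hTS
  rw [h1, card_insert_of_notMem hS', card_insert_of_notMem hwT,
    show S'.card + 1 - T.card = (S'.card - T.card) + 1 by omega,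
    show S'.card + 1 - (T.card + 1) = S'.card - T.card by omega, pow_succ]
  ring

theorem mobius (S0 : Finset W) : ∀ φ : Finset W → ℝ,
    ∑ S ∈ S0.powerset, ∑ T ∈ S.powerset, (-1 : ℝ) ^ (S.card - T.card) * φ T = φ S0 := by
  induction S0 using Finset.induction_on with
  | empty => intro φ; simp
  | insert w S0 hw ih =>
    intro φ
    rw [Finset.sum_powerset_insert hw, ih φ]
    have h1 : ∀ S ∈ S0.powerset,
        ∑ T ∈ (insert w S).powerset, (-1 : ℝ) ^ ((insert w S).card - T.card) * φ T =
        - (∑ T ∈ S.powerset, (-1 : ℝ) ^ (S.card - T.card) * φ T) +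
          ∑ T ∈ S.powerset, (-1 : ℝ) ^ (S.card - T.card) * φ (insert w T) := by
      intro S hS
      have hwS : w ∉ S := fun h => hw (mem_powerset.1 hS h)
      rw [Finset.sum_powerset_insert hwS, ← Finset.sum_neg_distrib]
      congr 1
      · refine Finset.sum_congr rfl fun T hT => ?_
        have h2 := Finset.card_le_card (mem_powerset.1 hT)
        rw [card_insert_of_notMem hwS,
          show S.card + 1 - T.card = (S.card - T.card) + 1 by omega, pow_succ]
        ring
      · refine Finset.sum_congr rfl fun T hT => ?_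
        have hwT : w ∉ T := fun h => hwS (mem_powerset.1 hT h)
        rw [card_insert_of_notMem hwS, card_insert_of_notMem hwT,
          show S.card + 1 - (T.card + 1) = S.card - T.card by omega]
    rw [Finset.sum_congr rfl h1, Finset.sum_add_distrib, Finset.sum_neg_distrib, ih φ,
      ih fun T => φ (insert w T)]
    ring

theorem sum_mob {S0 : Finset W} {F : (W → B) → ℝ} (hF : DepOn S0 F) :
    ∑ S ∈ S0.powerset, mob b0 S F = F := by
  funext g
  rw [Finset.sum_apply]
  simp only [mob_apply]
  rw [mobius S0 fun T => F (cut b0 T g)]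
  exact hF _ _ fun v hv => by unfold cut; rw [if_pos hv]

include b0 in
theorem glue (k : ℕ) (E : Finset W → (((W → B) → ℝ) →ₗ[ℝ] ℝ))
    (hE : ∀ S S' : Finset W, S ⊆ S' → S'.card ≤ k → ∀ F, DepOn S F → E S' F = E S F) :
    ∃ M : ((W → B) → ℝ) →ₗ[ℝ] ℝ, ∀ S : Finset W, S.card ≤ k → ∀ F, DepOn S F → M F = E S F := by
  refine ⟨∑ S ∈ univ.filter (fun S : Finset W => S.card ≤ k), (E S).comp (mob b0 S), ?_⟩
  intro S0 hS0 F hF
  rw [LinearMap.sum_apply]
  have hsub : S0.powerset ⊆ univ.filter (fun S : Finset W => S.card ≤ k) := by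
    intro S hS
    exact mem_filter.2 ⟨mem_univ _, (Finset.card_le_card (mem_powerset.1 hS)).trans hS0⟩
  rw [← Finset.sum_subset hsub]
  · conv_rhs => rw [← sum_mob b0 hF, map_sum]
    refine Finset.sum_congr rfl fun S hS => ?_
    rw [LinearMap.comp_apply]
    exact (hE S S0 (mem_powerset.1 hS) hS0 _ (mob_dep b0 S F)).symm
  · intro S _ hS
    rw [mem_powerset] at hS
    rw [LinearMap.comp_apply, mob_zero b0 hF hS, map_zero]

end

end Run7.h625.CW
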