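import Pool.Agent.W888.GX.Thr
import Pool.Agent.W888.GX.Avg
import Pool.Agent.Run7.h625.CW.Game

/-!
Doubled linear systems modulo two: Duplicator wins the bijective pebble game with linearly many
pebbles on the homogeneous and on the inhomogeneous system over an expanding hypergraph.
-/

set_option autoImplicit false
set_option linter.unusedSectionVars false

namespace Run7.h625.CW

open Finset Function
open Matrix hiding row
open Pool.Agent.W888.GX (wt rs row Exp wt_add wt_eq_zero rs_add row_dot Bad viol exists_hyp3
  exp3_of near_count z2 z2_add_self)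

section

variable {n m : ℕ} (c : Fin m → Fin 3 → Fin n) (b : Fin m → ZMod 2) (G : Finset (Fin m)) (K : ℕ)

/-- The doubled system: the variables are the pairs `(v, a)`, and every equation `j` of `G` has
eight copies. -/
def dbl : Str 3 (ZMod 2) (Fin n × ZMod 2) := fun z w =>
  (G.filter fun j => (fun l => (w l).1) = c j ∧ z = b j + ∑ l, (w l).2).card

/-- `h` satisfies all short consequences of the system with support in `S`. -/
def Cons (S : Finset (Fin n)) (h : Fin n → ZMod 2) : Prop :=
  ∀ a : Fin m → ZMod 2, (∀ j, j ∉ G → a j = 0) → wt a ≤ 2 * K →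
    (∀ v, v ∉ S → rs (row c) a v = 0) → ∑ v, rs (row c) a v * h v = ∑ j, a j * b j

variable {c b G K}

theorem cons_mono {S S' : Finset (Fin n)} {h : Fin n → ZMod 2} (hSS : S' ⊆ S)
    (hc : Cons c b G K S h) : Cons c b G K S' h :=
  fun a ha hw hs => hc a ha hw fun v hv => hs v fun h' => hv (hSS h')

theorem sum_update (R h : Fin n → ZMod 2) (u : Fin n) (z : ZMod 2) :
    ∑ v, R v * update h u z v = ∑ v, R v * h v + R u * (z - h u) := by
  have h1 : ∀ v, R v * update h u z v = R v * h v + if v = u then R u * (z - h u) else 0 := by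
    intro v
    by_cases hv : v = u
    · subst hv; simp; ring
    · simp [update_of_ne hv, hv]
  simp only [h1, Finset.sum_add_distrib, Finset.sum_ite_eq', Finset.mem_univ, if_true]

theorem cons_extend (hE : Exp (row c) univ G (4 * K)) {S : Finset (Fin n)} (hS : S.card ≤ K)
    {u : Fin n} {h : Fin n → ZMod 2} (hc : Cons c b G K S h) :
    ∃ z, Cons c b G K (insert u S) (update h u z) := by
  by_cases hex : ∃ a : Fin m → ZMod 2, (∀ j, j ∉ G → a j = 0) ∧ wt a ≤ 2 * K ∧
      (∀ v, v ∉ insert u S → rs (row c) a v = 0) ∧ rs (row c) a u = 1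
  · obtain ⟨a1, h1, h2, h3, h4⟩ := hex
    refine ⟨h u + (∑ v, rs (row c) a1 v * h v + ∑ j, a1 j * b j), ?_⟩
    intro a2 k1 k2 k3
    rw [sum_update]
    rcases z2 (rs (row c) a2 u) with k4 | k4
    · rw [k4, zero_mul, add_zero]
      refine hc a2 k1 k2 fun v hv => ?_
      by_cases hvu : v = u
      · rw [hvu, k4]
      · exact k3 v (by rw [mem_insert]; tauto)
    · have hsum : ∑ v, rs (row c) (a1 + a2) v * h v = ∑ j, (a1 + a2) j * b j := by
        have hzero : ∀ v, v ∉ S → rs (row c) (a1 + a2) v = 0 := by
          intro v hv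
          rw [rs_add, Pi.add_apply]
          by_cases hvu : v = u
          · rw [hvu, h4, k4]; rfl
          · rw [h3 v (by rw [mem_insert]; tauto), k3 v (by rw [mem_insert]; tauto), add_zero]
        have hG : ∀ j, j ∉ G → (a1 + a2) j = 0 := by
          intro j hj
          rw [Pi.add_apply, h1 j hj, k1 j hj, add_zero]
        refine hc (a1 + a2) hG ?_ hzero
        by_cases hne : a1 + a2 = 0
        · rw [hne]; unfold wt; simp
        · have hw := wt_add a1 a2
          have h5 := (hE (a1 + a2) hG (by omega) hne).1
          have h6 : (univ.filter fun v => rs (row c) (a1 + a2) v ≠ 0).card ≤ S.card := by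
            refine Finset.card_le_card fun v hv => ?_
            by_contra hvS
            exact (mem_filter.1 hv).2 (hzero v hvS)
          omega
      rw [k4, one_mul]
      simp only [rs_add, Pi.add_apply, add_mul, Finset.sum_add_distrib] at hsum
      have e1 : ∑ v, rs (row c) a2 v * h v =
          (∑ j, a1 j * b j + ∑ j, a2 j * b j) - ∑ v, rs (row c) a1 v * h v := by
        rw [← hsum]; ring
      rw [e1]
      have e2 : (∑ j, a1 j * b j : ZMod 2) + ∑ j, a1 j * b j = 0 := z2_add_self _
      linear_combination e2
  · refine ⟨0, ?_⟩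
    intro a2 k1 k2 k3
    have k4 : rs (row c) a2 u = 0 := by
      rcases z2 (rs (row c) a2 u) with k4 | k4
      · exact k4
      · exact absurd ⟨a2, k1, k2, k3, k4⟩ hex
    rw [sum_update, k4, zero_mul, add_zero]
    refine hc a2 k1 k2 fun v hv => ?_
    by_cases hvu : v = u
    · rw [hvu, k4]
    · exact k3 v (by rw [mem_insert]; tauto)

theorem cons_empty (hE : Exp (row c) univ G (4 * K)) : Cons c b G K ∅ 0 := by
  intro a h1 h2 h3
  have ha : a = 0 := by
    by_contra hne
    have h4 := (hE a h1 (by omega) hne).2
    have h5 : (univ.filter fun v => rs (row c) a v ≠ 0).card = 0 := by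
      rw [Finset.card_eq_zero, Finset.filter_eq_empty_iff]
      intro v _
      rw [not_not]
      exact h3 v (notMem_empty v)
    omega
  rw [ha]
  simp

theorem cons_row (hK : 1 ≤ K) {S : Finset (Fin n)} {h : Fin n → ZMod 2} (hc : Cons c b G K S h)
    {j : Fin m} (hj : j ∈ G) (hS : ∀ l, c j l ∈ S) : ∑ l, h (c j l) = b j := by
  have hrs : ∀ v, rs (row c) (Pi.single j 1) v = row c j v := by
    intro v
    unfold rs
    rw [Finset.sum_eq_single j]
    · simp
    · intro i _ hi
      rw [Pi.single_eq_of_ne hi, zero_mul]
    · intro h; exact absurd (mem_univ _) h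
  have h1 := hc (Pi.single j 1) (by
    intro i hi
    have hij : i ≠ j := by
      rintro rfl
      exact hi hj
    exact Pi.single_eq_of_ne hij _) (by
    have : wt (Pi.single j (1 : ZMod 2) : Fin m → ZMod 2) ≤ 1 := by
      unfold wt
      rw [Finset.card_le_one]
      intro x hx y hy
      have hx' : x = j := by
        by_contra hne
        exact (mem_filter.1 hx).2 (Pi.single_eq_of_ne hne _)
      have hy' : y = j := by
        by_contra hne
        exact (mem_filter.1 hy).2 (Pi.single_eq_of_ne hne _)
      rw [hx', hy']
    omega) (by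
    intro v hv
    rw [hrs]
    unfold row
    refine Finset.sum_eq_zero fun s _ => if_neg ?_
    rintro rfl
    exact hv (hS s))
  simp only [hrs] at h1
  have h2 := row_dot c j h
  unfold dotProduct at h2
  rw [h2] at h1
  rw [h1, Finset.sum_eq_single j]
  · simp
  · intro i _ hi
    rw [Pi.single_eq_of_ne hi, zero_mul]
  · intro h; exact absurd (mem_univ _) h

/-- Duplicator wins the game on the doubled systems. -/
theorem dbl_wins (hK : 1 ≤ K) (hE : Exp (row c) univ G (4 * K)) :
    DuplicatorWins K (dbl c 0 G) (dbl c b G) := by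
  classical
  refine ⟨{p | ∃ (T : Finset (Fin n)) (h : Fin n → ZMod 2), Cons c b G K T h ∧
    ∀ i x y, p i = some (x, y) → x.1 ∈ T ∧ y = (x.1, x.2 + h x.1)}, ?_, ?_⟩
  · exact ⟨∅, 0, cons_empty hE, fun i x y h => by simp at h⟩
  · rintro p ⟨T, h, hc, hp⟩
    refine ⟨⟨?_, ?_⟩, ?_⟩
    · rintro i j ⟨x, y⟩ ⟨x', y'⟩ hi hj
      have h1 := (hp i x y hi).2
      have h2 := (hp j x' y' hj).2
      subst h1
      subst h2
      constructor
      · intro h3
        simp only at h3
        rw [h3]
      · intro h3
        simp only [Prod.mk.injEq] at h3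
        obtain ⟨h4, h5⟩ := h3
        rw [h4] at h5
        exact Prod.ext h4 (add_right_cancel h5)
    · intro z σ a ha
      have h1 : ∀ l, (a l).1.1 ∈ T ∧ (a l).2 = ((a l).1.1, (a l).1.2 + h (a l).1.1) :=
        fun l => hp (σ l) (a l).1 (a l).2 (ha l)
      unfold dbl
      congr 1
      refine Finset.filter_congr fun j hj => ?_
      have e1 : (fun l => ((a l).2).1) = fun l => ((a l).1).1 := by
        funext l; rw [(h1 l).2]
      rw [e1]
      refine and_congr_right fun h2 => ?_
      have e2 : ∑ l, ((a l).2).2 = ∑ l, ((a l).1).2 + ∑ l, h (c j l) := by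
        rw [← Finset.sum_add_distrib]
        refine Finset.sum_congr rfl fun l _ => ?_
        rw [(h1 l).2, ← h2]
      rw [e2, cons_row hK hc hj (fun l => by rw [← h2]; exact (h1 l).1)]
      have e3 := z2_add_self (b j)
      rw [Pi.zero_apply, zero_add]
      constructor
      · intro h3
        rw [h3]
        linear_combination -e3
      · intro h3
        rw [h3]
        linear_combination e3
    · intro i
      obtain ⟨T', hT'⟩ : ∃ T' : Finset (Fin n), T' = univ.filter fun v =>
        ∃ j, j ≠ i ∧ ∃ x y, p j = some (x, y) ∧ x.1 = v := ⟨_, rfl⟩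
      have hTT : T' ⊆ T := by
        intro v hv
        rw [hT', mem_filter] at hv
        obtain ⟨-, j, -, x, y, hj, rfl⟩ := hv
        exact (hp j x y hj).1
      have hcard : T'.card ≤ K := by
        have h1 : (T'.image some).card ≤ K := by
          refine (Finset.card_le_card (t := univ.image fun j => (p j).map fun a => a.1.1) ?_).trans
            (Finset.card_image_le.trans (by rw [card_univ, Fintype.card_fin]))
          intro o ho
          obtain ⟨v, hv, rfl⟩ := mem_image.1 ho
          rw [hT', mem_filter] at hv
          obtain ⟨-, j, -, x, y, hj, rfl⟩ := hv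
          exact mem_image.2 ⟨j, mem_univ _, by rw [hj]; rfl⟩
        rwa [Finset.card_image_of_injective _ (Option.some_injective _)] at h1
      have hext : ∀ u, ∃ z, Cons c b G K (insert u T') (update h u z) ∧ (u ∈ T' → z = h u) := by
        intro u
        by_cases hu : u ∈ T'
        · refine ⟨h u, ?_, fun _ => rfl⟩
          rw [insert_eq_of_mem hu, update_eq_self]
          exact cons_mono hTT hc
        · obtain ⟨z, hz⟩ := cons_extend (u := u) hE hcard (cons_mono hTT hc)
          exact ⟨z, hz, fun h' => absurd h' hu⟩
      choose g hg using hext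
      refine ⟨{ toFun := fun x => (x.1, x.2 + g x.1)
                invFun := fun x => (x.1, x.2 - g x.1)
                left_inv := fun x => by simp
                right_inv := fun x => by simp }, ?_⟩
      intro v
      refine ⟨insert v.1 T', update h v.1 (g v.1), (hg v.1).1, ?_⟩
      intro j x y hj
      by_cases hji : j = i
      · subst hji
        rw [update_self] at hj
        simp only [Option.some.injEq, Prod.mk.injEq] at hj
        obtain ⟨rfl, rfl⟩ := hj
        exact ⟨mem_insert_self _ _, by simp⟩
      · rw [update_of_ne hji] at hj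
        have h1 : x.1 ∈ T' := by
          rw [hT', mem_filter]
          exact ⟨mem_univ _, j, hji, x, y, hj, rfl⟩
        refine ⟨mem_insert_of_mem h1, ?_⟩
        rw [(hp j x y hj).2]
        by_cases hxv : x.1 = v.1
        · rw [hxv, update_self, (hg v.1).2 (hxv ▸ h1)]
        · rw [update_of_ne hxv]

end

end Run7.h625.CW
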