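import Pool.Agent.Run7.h625.CW.Game
import Pool.Agent.Run7.h625.CW.Glue

/-!
A labeling of a weighted structure gives a Sherali-Adams solution on every structure that is
equivalent to it in the bijective pebble game.
-/

set_option autoImplicit false
set_option linter.unusedSectionVars false

namespace Run7.h625.CW

open Finset Function

section

variable {r K : ℕ} {Γ V W : Type} [Fintype V] [Fintype W]

open Classical in
/-- the tuples equivalent to `q` -/
noncomputable def cls (I : Str r Γ V) (J : Str r Γ W) (q : Fin K → W) : Finset (Fin K → V) :=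
  univ.filter fun p => Win I J p q

open Classical in
/-- the map that sends `q i` to `p i` -/
noncomputable def gl (v0 : V) (p : Fin K → V) (q : Fin K → W) : W → V :=
  fun w => if h : ∃ i, q i = w then p h.choose else v0

variable {I : Str r Γ V} {J : Str r Γ W} {v0 : V}

theorem mem_cls {q : Fin K → W} {p : Fin K → V} : p ∈ cls I J q ↔ Win I J p q := by
  simp [cls]

theorem gl_apply {p : Fin K → V} {q : Fin K → W} (h : Win I J p q) (i : Fin K) :
    gl v0 p q (q i) = p i := by
  have hex : ∃ j, q j = q i := ⟨i, rfl⟩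
  unfold gl
  rw [dif_pos hex]
  exact ((win_isStrat I J).eq p q h _ _).2 hex.choose_spec

/-- the average over the class of `q` -/
noncomputable def avg (I : Str r Γ V) (J : Str r Γ W) (v0 : V) (q : Fin K → W) :
    ((W → V) → ℝ) →ₗ[ℝ] ℝ :=
  ((cls I J q).card : ℝ)⁻¹ • ∑ p ∈ cls I J q, LinearMap.proj (gl v0 p q)

theorem avg_apply (q : Fin K → W) (F : (W → V) → ℝ) :
    avg I J v0 q F = ((cls I J q).card : ℝ)⁻¹ * ∑ p ∈ cls I J q, F (gl v0 p q) := by
  unfold avg
  rw [LinearMap.smul_apply, LinearMap.sum_apply, smul_eq_mul]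
  rfl

theorem avg_nonneg (q : Fin K → W) (F : (W → V) → ℝ) (hF : ∀ g, 0 ≤ F g) :
    0 ≤ avg I J v0 q F := by
  rw [avg_apply]
  exact mul_nonneg (by positivity) (Finset.sum_nonneg fun _ _ => hF _)

theorem avg_of_const (q : Fin K → W) (hne : (cls I J q).Nonempty) (F : (W → V) → ℝ)
    (hF : DepOn ∅ F) (g : W → V) : avg I J v0 q F = F g := by
  rw [avg_apply, Finset.sum_congr rfl fun p _ => hF (gl v0 p q) g (fun v hv => absurd hv (notMem_empty v)),
    Finset.sum_const, nsmul_eq_mul, ← mul_assoc, inv_mul_cancel₀, one_mul]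
  have := Finset.card_pos.2 hne
  positivity

open Classical in
theorem fiber (q : Fin K → W) (σ : Fin K → Fin K) (p1 p2 : Fin K → V)
    (h1 : Win I J p1 (q ∘ σ)) (h2 : Win I J p2 (q ∘ σ)) :
    ((cls I J q).filter fun p => p ∘ σ = p1).card =
      ((cls I J q).filter fun p => p ∘ σ = p2).card := by
  obtain ⟨τ, hτ⟩ : ∃ τ : Fin K → Fin K, ∀ j, σ (τ (σ j)) = σ j := by
    refine ⟨fun i => if h : ∃ j, σ j = i then h.choose else i, fun j => ?_⟩
    have hex : ∃ j', σ j' = σ j := ⟨j, rfl⟩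
    simp only [dif_pos hex]
    exact hex.choose_spec
  have key : ∀ p1 : Fin K → V, Win I J p1 (q ∘ σ) →
      (cls I J q).filter (fun p => p ∘ σ = p1) =
      univ.filter fun p => Win I J p q ∧
        ∀ i, i ∉ (univ.filter fun i => ¬ ∃ j, σ j = i) → p i = (p1 ∘ τ) i := by
    intro p1 h1
    ext p
    rw [mem_filter, mem_cls, mem_filter]
    constructor
    · rintro ⟨h, rfl⟩
      refine ⟨mem_univ _, h, fun i hi => ?_⟩
      rw [mem_filter, not_and, not_not] at hi
      obtain ⟨j, rfl⟩ := hi (mem_univ _)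
      simp only [Function.comp_apply, hτ]
    · rintro ⟨-, h, h3⟩
      refine ⟨h, funext fun j => ?_⟩
      have h4 := h3 (σ j) (by rw [mem_filter, not_and, not_not]; exact fun _ => ⟨j, rfl⟩)
      rw [Function.comp_apply, h4, Function.comp_apply]
      refine ((win_isStrat I J).eq p1 _ h1 _ _).2 ?_
      simp only [Function.comp_apply, hτ]
  rw [key p1 h1, key p2 h2]
  refine card_ext (I := I) (J := I) _ _ ?_ _ _ _ (win_comp (win_trans h1 (win_symm h2)) τ)
  intro p p' h
  exact ⟨fun h' => win_trans (win_symm h) h', fun h' => win_trans h h'⟩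

theorem avg_comp (q : Fin K → W) (hne : (cls I J q).Nonempty) (σ : Fin K → Fin K)
    (T : Finset W) (hT : ∀ w ∈ T, ∃ i, q (σ i) = w) (F : (W → V) → ℝ) (hF : DepOn T F) :
    avg I J v0 q F = avg I J v0 (q ∘ σ) F := by
  classical
  obtain ⟨p0, hp0⟩ := hne
  have h0 := win_comp (mem_cls.1 hp0) σ
  have hmaps : ∀ p ∈ cls I J q, p ∘ σ ∈ cls I J (q ∘ σ) := fun p hp =>
    mem_cls.2 (win_comp (mem_cls.1 hp) σ)
  obtain ⟨N, hN⟩ : ∃ N, N = ((cls I J q).filter fun p => p ∘ σ = p0 ∘ σ).card := ⟨_, rfl⟩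
  have hN0 : 0 < N := by
    rw [hN]
    exact Finset.card_pos.2 ⟨p0, mem_filter.2 ⟨hp0, rfl⟩⟩
  have hfib : ∀ p' ∈ cls I J (q ∘ σ), ((cls I J q).filter fun p => p ∘ σ = p').card = N := by
    intro p' hp'
    rw [hN]
    exact fiber q σ p' (p0 ∘ σ) (mem_cls.1 hp') h0
  have hcard : (cls I J q).card = N * (cls I J (q ∘ σ)).card := by
    rw [Finset.card_eq_sum_card_fiberwise hmaps, Finset.sum_congr rfl hfib, Finset.sum_const,
      smul_eq_mul, mul_comm]
  have hsum : ∑ p ∈ cls I J q, F (gl v0 p q) =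
      N * ∑ p' ∈ cls I J (q ∘ σ), F (gl v0 p' (q ∘ σ)) := by
    rw [← Finset.sum_fiberwise_of_maps_to hmaps, Finset.mul_sum]
    refine Finset.sum_congr rfl fun p' hp' => ?_
    rw [← hfib p' hp', ← nsmul_eq_mul, ← Finset.sum_const]
    refine Finset.sum_congr rfl fun p hp => ?_
    obtain ⟨hp1, rfl⟩ := mem_filter.1 hp
    refine hF _ _ fun w hw => ?_
    obtain ⟨i, rfl⟩ := hT w hw
    rw [gl_apply (mem_cls.1 hp1)]
    have := gl_apply (v0 := v0) (win_comp (mem_cls.1 hp1) σ) i
    rw [Function.comp_apply, Function.comp_apply] at this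
    exact this.symm
  have hc0 : (0 : ℝ) < (cls I J (q ∘ σ)).card := by
    exact_mod_cast Finset.card_pos.2 ⟨_, hmaps p0 hp0⟩
  have hN1 : (0 : ℝ) < N := by exact_mod_cast hN0
  rw [avg_apply, avg_apply, hsum, hcard]
  push_cast
  field_simp

open Classical in
theorem card_cls {p : Fin K → V} {q : Fin K → W} (h : Win I J p q) :
    (cls I J q).card = (univ.filter fun q' => Win I J p q').card := by
  have := card_ext (I := I) (J := J) (fun p' => Win I J p' q) (fun q' => Win I J p q') ?_ univ p q h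
  · simpa [cls] using this
  · intro p' q' h'
    exact ⟨fun h1 => win_trans h (win_trans (win_symm h1) h'),
      fun h1 => win_trans h' (win_trans (win_symm h1) h)⟩

open Classical in
theorem sum_inv (h : DuplicatorWins K I J) (p : Fin K → V) :
    ∑ q, (if Win I J p q then ((cls I J q).card : ℝ)⁻¹ else 0) = 1 := by
  obtain ⟨q0, hq0⟩ := exists_right h p
  rw [← Finset.sum_filter]
  rw [Finset.sum_congr rfl fun q hq => by rw [card_cls (mem_filter.1 hq).2], Finset.sum_const,
    nsmul_eq_mul, mul_inv_cancel₀]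
  have : 0 < (univ.filter fun q' => Win I J p q').card :=
    Finset.card_pos.2 ⟨q0, mem_filter.2 ⟨mem_univ _, hq0⟩⟩
  positivity

/-- the full tuple that enumerates a short tuple -/
def sh (hr : 0 < r) (i : Fin K) : Fin r := ⟨min i.1 (r - 1), by omega⟩

theorem sh_cast (hr : 0 < r) (hK : r ≤ K) (l : Fin r) : sh hr (Fin.castLE hK l) = l := by
  apply Fin.ext
  simp only [sh, Fin.val_castLE]
  have := l.isLt
  omega

theorem sh_left (hr : 0 < r) (hK : r ≤ K) {v : Fin r → V} {q : Fin K → W}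
    (h : Win I J (v ∘ sh hr) q) : (q ∘ Fin.castLE hK) ∘ sh hr = q := by
  funext i
  refine ((win_isStrat I J).eq _ _ h _ _).1 ?_
  simp only [Function.comp_apply, sh_cast]

theorem sh_right (hr : 0 < r) (hK : r ≤ K) {w : Fin r → W} {p : Fin K → V}
    (h : Win I J p (w ∘ sh hr)) : (p ∘ Fin.castLE hK) ∘ sh hr = p := by
  funext i
  refine ((win_isStrat I J).eq _ _ h _ _).2 ?_
  simp only [Function.comp_apply, sh_cast]

open Classical in
theorem sum_sh (hr : 0 < r) (hK : r ≤ K) (h : DuplicatorWins K I J) (v : Fin r → V) :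
    ∑ w : Fin r → W, (if Win I J (v ∘ sh hr) (w ∘ sh (K := K) hr) then
      ((cls I J (w ∘ sh (K := K) hr)).card : ℝ)⁻¹ else 0) = 1 := by
  rw [← sum_inv h (v ∘ sh hr), ← Finset.sum_filter, ← Finset.sum_filter]
  refine Finset.sum_bij' (fun w _ => w ∘ sh hr) (fun q _ => q ∘ Fin.castLE hK) ?_ ?_ ?_ ?_ ?_
  · intro w hw
    exact mem_filter.2 ⟨mem_univ _, (mem_filter.1 hw).2⟩
  · intro q hq
    refine mem_filter.2 ⟨mem_univ _, ?_⟩
    rw [sh_left hr hK (mem_filter.1 hq).2]
    exact (mem_filter.1 hq).2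
  · intro w _
    funext l
    simp only [Function.comp_apply, sh_cast]
  · intro q hq
    exact sh_left hr hK (mem_filter.1 hq).2
  · intro w _; rfl

theorem exists_enum (S : Finset W) (hS : S.Nonempty) (hc : S.card ≤ K) :
    ∃ q : Fin K → W, (∀ i, q i ∈ S) ∧ ∀ w ∈ S, ∃ i, q i = w := by
  obtain ⟨w0, hw0⟩ := hS
  refine ⟨fun i => if h : i.1 < S.card then (S.equivFin.symm ⟨i.1, h⟩).1 else w0, ?_, ?_⟩
  · intro i
    dsimp only
    split_ifs with h
    · exact (S.equivFin.symm ⟨i.1, h⟩).2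
    · exact hw0
  · intro w hw
    refine ⟨⟨(S.equivFin ⟨w, hw⟩).1, lt_of_lt_of_le (S.equivFin ⟨w, hw⟩).2 hc⟩, ?_⟩
    dsimp only
    rw [dif_pos (S.equivFin ⟨w, hw⟩).2]
    simp

theorem exists_factor {S : Finset W} {q q' : Fin K → W} (h : ∀ i, q' i ∈ S)
    (h' : ∀ w ∈ S, ∃ i, q i = w) : ∃ σ : Fin K → Fin K, q' = q ∘ σ := by
  choose σ hσ using fun i => h' (q' i) (h i)
  exact ⟨σ, funext fun i => (hσ i).symm⟩

/-- A labeling transfers to a Sherali-Adams solution of level `K`. -/
theorem transfer {A : Type} [Fintype Γ] (hr : 0 < r) (hK : r ≤ K) (h : DuplicatorWins K I J)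
    (x : V → A) :
    ∃ L : ((W → A) → ℝ) →ₗ[ℝ] ℝ, L (fun _ => 1) = 1 ∧
      (∀ S : Finset W, S.card ≤ K → ∀ f : (W → A) → ℝ,
        (∀ y y' : W → A, (∀ v ∈ S, y v = y' v) → f y = f y') → (∀ y, 0 ≤ f y) → 0 ≤ L f) ∧
      ∀ φ : Γ → (Fin r → A) → ℝ,
        ∑ c, ∑ w, (J c w : ℝ) * L (fun y => φ c (y ∘ w)) =
          ∑ c, ∑ v, (I c v : ℝ) * φ c (x ∘ v) := by
  classical
  by_cases hW : Nonempty W
  swap
  · have hV : IsEmpty V := by
      obtain ⟨S, h0, hS⟩ := h
      obtain ⟨f, -⟩ := (hS _ h0).2 ⟨0, by omega⟩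
      exact ⟨fun v => hW ⟨f v⟩⟩
    have hW' : IsEmpty W := not_nonempty_iff.1 hW
    refine ⟨LinearMap.proj (fun w => (hW'.false w).elim), rfl, fun S _ f _ hf => hf _, ?_⟩
    intro φ
    have e1 : IsEmpty (Fin r → W) := ⟨fun w => hW'.false (w ⟨0, hr⟩)⟩
    have e2 : IsEmpty (Fin r → V) := ⟨fun w => hV.false (w ⟨0, hr⟩)⟩
    simp
  obtain ⟨w0⟩ := hW
  obtain ⟨v0⟩ : Nonempty V := by
    obtain ⟨S, h0, hS⟩ := h
    obtain ⟨f, -⟩ := (hS _ h0).2 ⟨0, by omega⟩
    exact ⟨f.symm w0⟩
  have hne : ∀ q : Fin K → W, (cls I J q).Nonempty := by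
    intro q
    obtain ⟨p, hp⟩ := exists_left h q
    exact ⟨p, mem_cls.2 hp⟩
  -- enumerations
  have henum : ∀ S : Finset W, ∃ q : Fin K → W, S.Nonempty → S.card ≤ K →
      (∀ i, q i ∈ S) ∧ ∀ w ∈ S, ∃ i, q i = w := by
    intro S
    by_cases h1 : S.Nonempty ∧ S.card ≤ K
    · obtain ⟨q, hq⟩ := exists_enum S h1.1 h1.2
      exact ⟨q, fun _ _ => hq⟩
    · exact ⟨fun _ => w0, fun h2 h3 => absurd ⟨h2, h3⟩ h1⟩
  choose en hen using henum
  obtain ⟨M, hM⟩ := glue v0 K (fun S => avg I J v0 (en S)) (by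
    intro S S' hSS hS' F hF
    rcases S.eq_empty_or_nonempty with h1 | h1
    · subst h1
      rw [avg_of_const _ (hne _) F hF (fun _ => v0), avg_of_const _ (hne _) F hF (fun _ => v0)]
    · have h2 := hen S h1 ((Finset.card_le_card hSS).trans hS')
      have h3 := hen S' (h1.mono hSS) hS'
      obtain ⟨σ, hσ⟩ := exists_factor (q := en S') (q' := en S) (S := S') (fun i => hSS (h2.1 i)) h3.2
      rw [hσ]
      refine avg_comp (en S') (hne _) σ S ?_ F hF
      intro w hw
      obtain ⟨i, hi⟩ := h2.2 w hw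
      exact ⟨i, by rw [← hi, hσ]; rfl⟩)
  refine ⟨M.comp (LinearMap.funLeft ℝ ℝ (fun g : W → V => x ∘ g)), ?_, ?_, ?_⟩
  · rw [LinearMap.comp_apply]
    have h1 : DepOn (∅ : Finset W)
        (LinearMap.funLeft ℝ ℝ (fun g : W → V => x ∘ g) fun _ => (1 : ℝ)) := fun _ _ _ => rfl
    rw [hM ∅ (by simp) _ h1, avg_of_const _ (hne _) _ h1 (fun _ => v0)]
    rfl
  · intro S hS f hf hf0
    rw [LinearMap.comp_apply]
    have h1 : DepOn S (LinearMap.funLeft ℝ ℝ (fun g : W → V => x ∘ g) f) := by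
      intro g g' hgg
      exact hf _ _ fun v hv => by simp only [Function.comp_apply, hgg v hv]
    rw [hM S hS _ h1]
    exact avg_nonneg _ _ fun g => hf0 _
  · intro φ
    have hsingle : ∀ (c : Γ) (w : Fin r → W),
        (J c w : ℝ) * (M.comp (LinearMap.funLeft ℝ ℝ (fun g : W → V => x ∘ g)))
          (fun y => φ c (y ∘ w)) =
        ∑ v : Fin r → V, (if Win I J (v ∘ sh hr) (w ∘ sh (K := K) hr) then
          ((cls I J (w ∘ sh (K := K) hr)).card : ℝ)⁻¹ * ((I c v : ℝ) * φ c (x ∘ v)) else 0) := by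
      intro c w
      rw [LinearMap.comp_apply]
      have hdep : DepOn (univ.image w)
          (LinearMap.funLeft ℝ ℝ (fun g : W → V => x ∘ g) fun y => φ c (y ∘ w)) := by
        intro g g' hgg
        show φ c ((x ∘ g) ∘ w) = φ c ((x ∘ g') ∘ w)
        congr 1
        funext l
        simp only [Function.comp_apply]
        rw [hgg (w l) (mem_image_of_mem _ (mem_univ l))]
      have hcard : (univ.image w).card ≤ K := by
        refine (Finset.card_image_le).trans ?_
        rw [card_univ, Fintype.card_fin]; exact hK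
      have hne' : (univ.image w).Nonempty := ⟨w ⟨0, hr⟩, mem_image_of_mem _ (mem_univ _)⟩
      have h2 := hen _ hne' hcard
      obtain ⟨σ, hσ⟩ := exists_factor (q := w ∘ sh (K := K) hr) (q' := en (univ.image w))
        (S := univ.image w) h2.1 (by
          intro w' hw'
          obtain ⟨l, -, rfl⟩ := mem_image.1 hw'
          exact ⟨Fin.castLE hK l, by simp only [Function.comp_apply, sh_cast]⟩)
      rw [hM _ hcard _ hdep, hσ]
      rw [← avg_comp (w ∘ sh (K := K) hr) (hne _) σ (univ.image w) ?_ _ hdep]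
      swap
      · intro w' hw'
        obtain ⟨i, hi⟩ := h2.2 w' hw'
        exact ⟨i, by rw [← hi, hσ]; rfl⟩
      rw [avg_apply, ← Finset.sum_filter, ← Finset.mul_sum]
      rw [← mul_assoc, mul_comm (J c w : ℝ), mul_assoc, Finset.mul_sum]
      congr 1
      refine Finset.sum_bij' (fun p _ => p ∘ Fin.castLE hK) (fun v _ => v ∘ sh hr) ?_ ?_ ?_ ?_ ?_
      · intro p hp
        refine mem_filter.2 ⟨mem_univ _, ?_⟩
        rw [sh_right hr hK (mem_cls.1 hp)]
        exact mem_cls.1 hp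
      · intro v hv
        exact mem_cls.2 (mem_filter.1 hv).2
      · intro p hp
        exact sh_right hr hK (mem_cls.1 hp)
      · intro v _
        funext l
        simp only [Function.comp_apply, sh_cast]
      · intro p hp
        have hw1 := mem_cls.1 hp
        have h3 := (win_isStrat I J).wt p _ hw1 c (Fin.castLE hK)
        have h4 : (w ∘ sh hr) ∘ Fin.castLE hK = w := by
          funext l; simp only [Function.comp_apply, sh_cast]
        rw [h4] at h3
        rw [h3]
        congr 1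
        show φ c ((x ∘ gl v0 p (w ∘ sh hr)) ∘ w) = φ c (x ∘ (p ∘ Fin.castLE hK))
        congr 1
        funext l
        simp only [Function.comp_apply]
        congr 1
        have h5 := gl_apply (v0 := v0) hw1 (Fin.castLE hK l)
        simp only [Function.comp_apply, sh_cast] at h5
        exact h5
    rw [Finset.sum_congr rfl fun c _ => Finset.sum_congr rfl fun w _ => hsingle c w]
    refine Finset.sum_congr rfl fun c _ => ?_
    rw [Finset.sum_comm]
    refine Finset.sum_congr rfl fun v _ => ?_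
    have h6 := congrArg (fun t => t * ((I c v : ℝ) * φ c (x ∘ v))) (sum_sh (K := K) hr hK h v)
    rw [one_mul, Finset.sum_mul] at h6
    refine Eq.trans ?_ h6
    refine Finset.sum_congr rfl fun w _ => ?_
    split_ifs with h1
    · rfl
    · rw [zero_mul]

end

end Run7.h625.CW
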